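import Pool.Agent.H85.BC2.Comp

/-!
# Module C2 of MP_02e9fb_an, part 4: the ergodic component
-/

open scoped ComplexConjugate InnerProductSpace ENNReal
open Filter Topology MeasureTheory

namespace Pool.Agent.H85.BC2

open Pool.Agent.H84.B

variable {Λ : Type} [CommRing Λ]

lemma admF_emb {p : ℕ} [Fact p.Prime] (ρ : Λ →+* ZMod p) (g : Y Λ) (t : ℕ) (hg : Adm ρ g)
    (hu : units ρ g = p * t) (ht : t ≡ 1 [MOD p]) : AdmF ρ (emb e1 g).1 := by
  classical
  refine ⟨?_, t, ?_, ht⟩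
  · intro i
    by_cases hi : i ∈ Set.range e1
    · obtain ⟨j, rfl⟩ := hi
      rw [emb_apply]
      exact hg j
    · rw [emb_apply_of_notMem _ _ _ hi, map_zero]
      exact Or.inl rfl
  · have hset : {i | ρ ((emb e1 g).1 i) = 1}
        = e1 '' (↑(g.1.support.filter (fun i => ρ (g.1 i) = 1)) : Set ℕ) := by
      ext i
      simp only [Set.mem_ofPred_eq, Set.mem_image, Finset.mem_coe, Finset.mem_filter]
      constructor
      · intro h
        have hne : (emb e1 g).1 i ≠ 0 := by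
          intro h0
          rw [h0, map_zero] at h
          exact zero_ne_one h
        obtain ⟨j, hj, hj'⟩ := emb_ne_zero hne
        refine ⟨j, ⟨Finsupp.mem_support_iff.2 hj', ?_⟩, hj⟩
        rw [← hj, emb_apply] at h
        exact h
      · rintro ⟨j, ⟨_, hj⟩, rfl⟩
        rw [emb_apply]
        exact hj
    rw [hset, Set.ncard_image_of_injective _ e1.injective, Set.ncard_coe_finset, ← hu]
    unfold units
    congr

/-- the acting group -/
noncomputable def Gs (Λ : Type) [CommRing Λ] : Set (Om Λ ≃ᵐ Om Λ) :=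
  Set.range (fun q : Y Λ × FP => (Vm (Λ := Λ) q.2).trans (Um q.1))

lemma mem_Gs (y : Y Λ) (σ : FP) (g : Om Λ ≃ᵐ Om Λ) (h : ∀ a, g a = Um y (Vm σ a)) :
    g ∈ Gs Λ := by
  refine ⟨(y, σ), ?_⟩
  ext1
  funext a
  exact (h a).symm

theorem C2 (hconj : T_conj) (hext : T_perm_extend) (hcop : T_copies) (hhh : T_hh)
    (herg : T_erg) : T_C2 := by
  intro p _ Λ _ _ ρ β k1 k2 m hm hpos hzero
  have := hm.prob
  have hcY : Countable (Y Λ) := inferInstance
  obtain ⟨κ, hκ1, hκ, hκ2⟩ := herg (Om Λ) m (Gs Λ) hm.prob (Set.countable_range _)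
    (mem_Gs 0 1 _ (by
      intro a
      rw [Vm_one, Um_zero]
      rfl))
    (by
      rintro _ ⟨⟨y, σ⟩, rfl⟩ _ ⟨⟨y', σ'⟩, rfl⟩
      refine mem_Gs (y' + pY σ'⁻¹ y) (σ * σ') _ ?_
      intro a
      change Um y' (Vm σ' (Um y (Vm σ a))) = _
      rw [Um_add, Vm_mul, Vm_Um σ' (pY σ'⁻¹ y), ← pY_mul, mul_inv_cancel, pY_one])
    (by
      rintro _ ⟨⟨y, σ⟩, rfl⟩
      refine mem_Gs (pY σ (-y)) σ⁻¹ _ ?_
      intro a
      rw [MeasurableEquiv.symm_apply_eq]
      change a = Um y (Vm σ (Um (pY σ (-y)) (Vm σ⁻¹ a)))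
      have h0 : y + -y = 0 := add_neg_cancel y
      rw [← Vm_Um, ← Um_add, h0, Um_zero, ← Vm_mul, inv_mul_cancel, Vm_one])
    (by
      rintro _ ⟨⟨y, σ⟩, rfl⟩
      exact (exch_Um hm y).comp (exch_Vm hm σ))
  set E : Set (Om Λ) := {a | a 0 = true} with hE
  have hEm : MeasurableSet E := measurableSet_cyl 0
  -- the null sets
  set Nu : {g : Y Λ // Adm ρ g ∧ ∃ t, units ρ g = p * t ∧ t ≡ 1 [MOD p]} → Set (Om Λ) :=
    fun g => {a | a 0 = true ∧ a (k1 • (emb e1 g.1).1) = true ∧ a (k2 • (emb e1 g.1).1) = true}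
    with hNu
  have hNum : ∀ g, MeasurableSet (Nu g) := fun g =>
    (measurableSet_cyl 0).inter ((measurableSet_cyl _).inter (measurableSet_cyl _))
  have hN0 : ∀ᵐ w ∂m, ∀ g, κ w (Nu g) = 0 := by
    rw [ae_all_iff]
    intro g
    obtain ⟨g, hg, t, hu, ht⟩ := g
    have h1 := hzero (emb e1 g).1 (admF_emb ρ g t hg hu ht)
    have h2 := hκ (Nu ⟨g, hg, t, hu, ht⟩) (hNum _)
    have h3 : ∫⁻ ω, κ ω (Nu ⟨g, hg, t, hu, ht⟩) ∂m = 0 := by
      rw [← h2]
      exact h1
    rw [lintegral_eq_zero_iff (κ.measurable_coe (hNum _))] at h3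
    exact h3
  have hL1 := ae_lln hconj hext hcop hhh p β k1 m hm κ hκ1 hκ
  have hL2 := ae_lln hconj hext hcop hhh p β k2 m hm κ hκ1 hκ
  have hposE : ∃ᶠ w in ae m, κ w E ≠ 0 := by
    intro h
    apply hpos
    have h' : ∀ᵐ w ∂m, κ w E = 0 := by
      filter_upwards [h] with w hw
      by_contra hne
      exact hw hne
    have h2 := hκ E hEm
    rw [h2]
    rw [lintegral_eq_zero_iff (κ.measurable_coe hEm)]
    exact h'
  obtain ⟨w, hwE, hw0, hw1, hw2, hwG, hwerg⟩ :=
    (hposE.and_eventually (hN0.and (hL1.and (hL2.and hκ2)))).exists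
  have hUmp : ∀ y : Y Λ, MeasurePreserving (Um (Λ := Λ) y) (κ w) (κ w) := by
    intro y
    have := hwG ((Vm (Λ := Λ) 1).trans (Um y)) ⟨(y, 1), rfl⟩
    have h : ⇑((Vm (Λ := Λ) 1).trans (Um y)) = ⇑(Um (Λ := Λ) y) := by
      funext a
      change Um y (Vm 1 a) = _
      rw [Vm_one]
    rwa [h] at this
  have hVmp : ∀ σ : FP, MeasurePreserving (Vm (Λ := Λ) σ) (κ w) (κ w) := by
    intro σ
    have := hwG ((Vm (Λ := Λ) σ).trans (Um 0)) ⟨(0, σ), rfl⟩
    have h : ⇑((Vm (Λ := Λ) σ).trans (Um 0)) = ⇑(Vm (Λ := Λ) σ) := by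
      funext a
      change Um 0 (Vm σ a) = _
      rw [Um_zero]
    rwa [h] at this
  let M : MSys Λ (Om Λ) (κ w) :=
    { prob := inferInstance
      U := Um
      V := Vm
      U_mp := hUmp
      V_mp := hVmp
      U_zero := Um_zero
      U_add := Um_add
      V_one := Vm_one
      V_mul := Vm_mul
      VU := Vm_Um
      erg := by
        intro f hf hfU hfV
        refine hwerg f hf ?_
        rintro _ ⟨⟨y, σ⟩, rfl⟩
        have h1 : (f ∘ Um y) ∘ Vm σ =ᵐ[κ w] f ∘ Vm σ :=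
          (hVmp σ).quasiMeasurePreserving.ae_eq_comp (hfU y)
        exact h1.trans (hfV σ) }
  have hlln : ∀ k : Λ, CompLLN (κ w) p β k → M.LLN p β k E := by
    rintro k ⟨φ, hφ, h⟩
    refine ⟨φ, hφ, ?_⟩
    intro r ε hε
    obtain ⟨N, hN, hN2, d, hd⟩ := h r ε hε
    refine ⟨N, hN, hN2, fun n => cyl (k • emb e0 (d n)).1, ?_, ?_⟩
    · intro n
      refine ⟨measurableSet_cyl _, ?_⟩
      intro σ
      ext a
      change Vm σ a (k • emb e0 (d n)).1 = true ↔ a (k • emb e0 (d n)).1 = true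
      rw [Vm_apply_Y, pY_smul, pY_hat_emb0]
    · intro l c hc hcB hcc
      have h1 := hd l c hc hcB hcc
      refine le_of_eq_of_le ?_ h1
      congr 1
      funext a
      congr 1
      unfold Zf Z G
      congr 1
      · congr 1
        refine Finset.sum_congr rfl ?_
        intro n _
        congr 1
        · change ind (cyl (k • emb e0 (d n)).1) (Um (k • bb p β (φ l)) a) = _
          have : ((k • emb e0 (d n)) + k • emb e1 (bb p β (φ l))).1
              = (k • emb e0 (d n)).1 + (emb e1 (k • bb p β (φ l))).1 := by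
            rw [emb_smul]
            rfl
          rw [this]
          rfl
      · congr 1
        refine Finset.sum_congr rfl ?_
        intro n _
        have hz : ∀ u : ℕ →₀ Λ, ∀ b : Om Λ, ind (cyl u) b = ind {b : Om Λ | b u = true} b :=
          fun _ _ => rfl
        congr 1
        · change ind E (Um (k • bb p β (φ l)) (Um (k • c n) a)) = _
          rw [← Um_add]
          have : ((k • emb e1 (c n)) + k • emb e1 (bb p β (φ l))).1
              = 0 + (emb e1 (k • bb p β (φ l) + k • c n)).1 := by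
            rw [emb_add, emb_smul, emb_smul, zero_add, add_comm]
          rw [this]
          rfl
        · change ind E (Um (k • c n) a) = _
          have : (k • emb e1 (c n)).1 = 0 + (emb e1 (k • c n)).1 := by
            rw [emb_smul, zero_add]
          rw [this]
          rfl
  refine ⟨κ w, M, E, hEm, ?_, hwE, hlln k1 (hw1 hVmp), hlln k2 (hw2 hVmp), ?_⟩
  · intro σ
    ext a
    change Vm σ a (0 : Y Λ).1 = true ↔ a (0 : Y Λ).1 = true
    rw [Vm_apply_Y]
    have : pY (hat σ) (0 : Y Λ) = 0 := pY_fix _ _ (fun i hi => absurd rfl hi)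
    rw [this]
  · intro g t hg hu ht
    have h := hw0 ⟨g, hg, t, hu, ht⟩
    have hset : E ∩ (M.U (k1 • g)) ⁻¹' E ∩ (M.U (k2 • g)) ⁻¹' E = Nu ⟨g, hg, t, hu, ht⟩ := by
      ext a
      change ((a 0 = true ∧ a (0 + (emb e1 (k1 • g)).1) = true) ∧ a (0 + (emb e1 (k2 • g)).1) = true)
        ↔ (a 0 = true ∧ a (k1 • (emb e1 g).1) = true ∧ a (k2 • (emb e1 g).1) = true)
      rw [emb_smul, emb_smul, zero_add, zero_add, and_assoc]
      rfl
    rw [hset]
    exact h

end Pool.Agent.H85.BC2
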