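import Pool.Agent.H85.BC2.Lln

/-!
# Module C2 of MP_02e9fb_an, part 3: the choice of the ergodic component
-/

open scoped ComplexConjugate InnerProductSpace ENNReal
open Filter Topology MeasureTheory

namespace Pool.Agent.H85.BC2

open Pool.Agent.H84.B

variable {Λ : Type} [CommRing Λ]

/-- the integrand, with frozen family `d` and active family `c` -/
noncomputable def Zf {N : ℕ} (k : Λ) (b : Y Λ) (d c : Fin N → Y Λ) : Om Λ → ℝ :=
  Z (k • emb e1 b) (fun n => k • emb e0 (d n)) (fun n => k • emb e1 (c n))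

lemma measurable_Zf {N : ℕ} (k : Λ) (b : Y Λ) (d c : Fin N → Y Λ) : Measurable (Zf k b d c) :=
  measurable_Z _ _ _

lemma measurable_Zf2 {N : ℕ} (k : Λ) (b : Y Λ) (d c : Fin N → Y Λ) :
    Measurable (fun a => ENNReal.ofReal ((Zf k b d c a) ^ 2)) :=
  ((measurable_Zf k b d c).pow_const 2).ennreal_ofReal

/-- the second moment does not depend on the active family -/
lemma lint_indep (hconj : T_conj) (ν : Measure (Om Λ))
    (hν : ∀ σ : FP, MeasurePreserving (Vm (Λ := Λ) σ) ν ν)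
    {N : ℕ} (B : Finset ℕ) (k : Λ) (b h : Y Λ) (hb : ∀ i, b.1 i ≠ 0 → i ∈ B)
    (d c c' : Fin N → Y Λ) (hc : ∀ n, IsCopy h (c n)) (hc' : ∀ n, IsCopy h (c' n))
    (hcB : ∀ n, Off (c n) B) (hcB' : ∀ n, Off (c' n) B)
    (hcc : ∀ n n', n ≠ n' → Dsj (c n) (c n')) (hcc' : ∀ n n', n ≠ n' → Dsj (c' n) (c' n')) :
    ∫⁻ a, ENNReal.ofReal ((Zf k b d c' a) ^ 2) ∂ν = ∫⁻ a, ENNReal.ofReal ((Zf k b d c a) ^ 2) ∂ν := by
  obtain ⟨σ, hσ, hσ2⟩ := hconj Λ B N c c' (fun n => copy_trans (copy_symm (hc n)) (hc' n))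
    hcB hcB' hcc hcc'
  have h1 : ∀ a, Zf k b d c (Vm σ a) = Zf k b d c' a := by
    intro a
    have hbb : pY (hat σ) (k • emb e1 b) = k • emb e1 b := by
      rw [pY_smul, pY_hat_emb1, pY_fix σ b (fun i hi => hσ i (hb i hi))]
    unfold Zf Z
    simp only [G_Vm, hbb, pY_smul, pY_hat_emb0, pY_hat_emb1, ← hσ2]
  rw [← (hν σ).lintegral_comp (measurable_Zf2 k b d c)]
  simp only [h1]

lemma exch_Vm {m : Measure (Om Λ)} (hm : Exch m) (σ : FP) :
    MeasurePreserving (Vm (Λ := Λ) σ) m m := hm.perm (hat σ)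

lemma exch_Um {m : Measure (Om Λ)} (hm : Exch m) (y : Y Λ) :
    MeasurePreserving (Um (Λ := Λ) y) m m := hm.shift _

/-- the second moment estimate for the exchangeable measure -/
lemma lint_exch (hconj : T_conj) (hext : T_perm_extend) (m : Measure (Om Λ)) (hm : Exch m)
    {N : ℕ} (hN : 0 < N) (B : Finset ℕ) (k : Λ) (b h : Y Λ) (hb : ∀ i, b.1 i ≠ 0 → i ∈ B)
    (d c : Fin N → Y Λ) (hd : ∀ n, IsCopy h (d n)) (hc : ∀ n, IsCopy h (c n))
    (hcB : ∀ n, Off (c n) B)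
    (hdd : ∀ n n', n ≠ n' → Dsj (d n) (d n')) (hcc : ∀ n n', n ≠ n' → Dsj (c n) (c n')) :
    ∫⁻ a, ENNReal.ofReal ((Zf k b d c a) ^ 2) ∂m ≤ ENNReal.ofReal (1 / N) := by
  have := hm.prob
  have hcb : ∀ n, Dsj (c n) b := by
    intro n
    rw [dsj_iff]
    intro i h1 h2
    exact (off_iff _ _).1 (hcB n) i h1 (hb i h2)
  have key := second_moment hconj m hm hN k (emb e1 b) h (fun n => emb e0 (d n))
    (fun n => emb e1 (c n)) (fun n => copy_trans (hd n) (copy_emb hext _ _))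
    (fun n => copy_trans (hc n) (copy_emb hext _ _)) (fun n => emb_dsj' _ _)
    (fun n => emb_dsj _ (hcb n)) (fun n n' hn => emb_dsj _ (hdd n n' hn))
    (fun n n' hn => emb_dsj _ (hcc n n' hn)) (fun n n' => emb_dsj' _ _)
  have hI : Integrable (fun a => (Zf k b d c a) ^ 2) m := by
    have hb1 : ∀ a, |Zf k b d c a| ≤ 2 := by
      intro a
      have hNr : (0 : ℝ) < N := by exact_mod_cast hN
      have hav : ∀ (x : Fin N → Y Λ), |(1 / (N : ℝ)) * ∑ n, G (k • emb e1 b) (x n) a| ≤ 1 := by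
        intro x
        rw [abs_of_nonneg (mul_nonneg (by positivity) (Finset.sum_nonneg fun n _ => G_nonneg _ _ _))]
        calc (1 / (N : ℝ)) * ∑ n, G (k • emb e1 b) (x n) a
            ≤ (1 / (N : ℝ)) * ∑ n : Fin N, (1 : ℝ) := by
              refine mul_le_mul_of_nonneg_left ?_ (by positivity)
              exact Finset.sum_le_sum fun n _ => G_le_one _ _ _
          _ = 1 := by
              simp
              field_simp
      unfold Zf Z
      refine (abs_sub _ _).trans ?_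
      have h1 := hav (fun n => k • emb e0 (d n))
      have h2 := hav (fun n => k • emb e1 (c n))
      linarith
    refine integrable_bdd m ((measurable_Zf k b d c).pow_const 2) 4 ?_
    intro a
    rw [abs_pow]
    have := hb1 a
    have h0 := abs_nonneg (Zf k b d c a)
    nlinarith
  rw [← ofReal_integral_eq_lintegral_ofReal hI (Eventually.of_forall fun a => sq_nonneg _)]
  exact ENNReal.ofReal_le_ofReal key

lemma bb_supp (hhh : T_hh) (p : ℕ) (β : ℕ → Λ) (m i : ℕ) (h : (bb p β m).1 i ≠ 0) : i ∈ W p m := by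
  have hs := (hhh Λ).2.2.2.2.2.2.2.2.2.2.2.2.1
  unfold W
  rw [Finset.mem_range]
  have : (bb p β m).1 i = (hh p β ((p + 1) * m) m).1 i - (hh p β 0 m).1 i := rfl
  by_contra hi
  apply h
  rw [this]
  have h1 : (hh p β ((p + 1) * m) m).1 i = 0 := by
    by_contra hne
    have := (hs p β ((p + 1) * m) m i hne).2
    omega
  have h2 : (hh p β 0 m).1 i = 0 := by
    by_contra hne
    have := (hs p β 0 m i hne).2
    omega
  rw [h1, h2, sub_zero]

/-- the law of large numbers for a component -/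
def CompLLN (ν : Measure (Om Λ)) (p : ℕ) (β : ℕ → Λ) (k : Λ) : Prop :=
  ∃ φ : ℕ → ℕ, StrictMono φ ∧ ∀ (r : ℕ) (ε : ℝ), 0 < ε →
    ∃ N : ℕ, 0 < N ∧ (1 : ℝ) / N ≤ ε ∧ ∃ d : Fin N → Y Λ,
      ∀ l : ℕ, ∀ c : Fin N → Y Λ, (∀ n, IsCopy (hh p β 0 r) (c n)) →
        (∀ n, Off (c n) (W p (φ l))) → (∀ n n', n ≠ n' → Dsj (c n) (c n')) →
        ∫ ω, (Zf k (bb p β (φ l)) d c ω) ^ 2 ∂ν ≤ ε ^ 2

lemma tsum_bound : ∑' j : ℕ, (2 : ℝ≥0∞) ^ j * ENNReal.ofReal (1 / ((4 ^ j : ℕ) : ℝ)) ≠ ∞ := by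
  have h : ∀ j : ℕ, (2 : ℝ≥0∞) ^ j * ENNReal.ofReal (1 / ((4 ^ j : ℕ) : ℝ)) = (2⁻¹ : ℝ≥0∞) ^ j := by
    intro j
    have h2 : (2 : ℝ≥0∞) ^ j = ENNReal.ofReal (2 ^ j) := by
      rw [ENNReal.ofReal_pow (by norm_num)]
      simp
    have h3 : (2⁻¹ : ℝ≥0∞) ^ j = ENNReal.ofReal ((1 / 2) ^ j) := by
      rw [ENNReal.ofReal_pow (by norm_num)]
      congr 1
      rw [ENNReal.ofReal_div_of_pos (by norm_num)]
      simp
    rw [h2, h3, ← ENNReal.ofReal_mul (by positivity)]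
    congr 1
    push_cast
    rw [show (4 : ℝ) = 2 * 2 by norm_num, mul_pow]
    field_simp
    rw [← mul_pow]
    norm_num
  simp only [h]
  rw [ENNReal.tsum_geometric]
  rw [ENNReal.inv_ne_top]
  intro h0
  rw [tsub_eq_zero_iff_le] at h0
  have : (2⁻¹ : ℝ≥0∞) < 1 := by
    rw [ENNReal.inv_lt_one]
    norm_num
  exact absurd h0 (not_le.2 this)

/-- almost every component satisfies the law of large numbers -/
lemma ae_lln (hconj : T_conj) (hext : T_perm_extend) (hcop : T_copies) (hhh : T_hh)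
    (p : ℕ) (β : ℕ → Λ) (k : Λ) (m : Measure (Om Λ)) (hm : Exch m)
    (κ : ProbabilityTheory.Kernel (Om Λ) (Om Λ)) (_hκ1 : ProbabilityTheory.IsMarkovKernel κ)
    (hκ : ∀ B : Set (Om Λ), MeasurableSet B → m B = ∫⁻ ω, κ ω B ∂m) :
    ∀ᵐ w ∂m, (∀ σ : FP, MeasurePreserving (Vm (Λ := Λ) σ) (κ w) (κ w)) →
      CompLLN (κ w) p β k := by
  have := hm.prob
  have hbind : m.bind κ = m := by
    refine Measure.ext ?_
    intro B hB
    rw [Measure.bind_apply hB κ.measurable.aemeasurable, hκ B hB]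
  choose d hd hdB hdd using fun j : ℕ =>
    hcop Λ (hh p β 0 (Nat.unpair j).1) ∅ (4 ^ j)
  choose c hc hcB hcc using fun j M : ℕ =>
    hcop Λ (hh p β 0 (Nat.unpair j).1) (W p M) (4 ^ j)
  set e : ℕ → ℕ → Om Λ → ℝ≥0∞ := fun M j w =>
    ∫⁻ a, ENNReal.ofReal ((Zf k (bb p β M) (d j) (c j M) a) ^ 2) ∂(κ w) with he
  have hem : ∀ M j, Measurable (e M j) := fun M j =>
    (measurable_Zf2 _ _ _ _).lintegral_kernel
  have hes : ∀ M j, ∫⁻ w, e M j w ∂m ≤ ENNReal.ofReal (1 / ((4 ^ j : ℕ) : ℝ)) := by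
    intro M j
    have h1 : ∫⁻ w, e M j w ∂m
        = ∫⁻ a, ENNReal.ofReal ((Zf k (bb p β M) (d j) (c j M) a) ^ 2) ∂m := by
      conv_rhs => rw [← hbind]
      rw [Measure.lintegral_bind κ.measurable.aemeasurable (measurable_Zf2 _ _ _ _).aemeasurable]
    rw [h1]
    exact lint_exch hconj hext m hm (by positivity) (W p M) k (bb p β M) _
      (fun i hi => bb_supp hhh p β M i hi) (d j) (c j M) (hd j) (hc j M) (hcB j M) (hdd j) (hcc j M)
  set S : ℕ → Om Λ → ℝ≥0∞ := fun M w => ∑' j, (2 : ℝ≥0∞) ^ j * e M j w with hS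
  have hSm : ∀ M, Measurable (S M) := fun M =>
    Measurable.tsum fun j => (hem M j).const_mul _
  have hSb : ∀ M, ∫⁻ w, S M w ∂m
      ≤ ∑' j : ℕ, (2 : ℝ≥0∞) ^ j * ENNReal.ofReal (1 / ((4 ^ j : ℕ) : ℝ)) := by
    intro M
    simp only [hS]
    rw [lintegral_tsum (fun j => ((hem M j).const_mul _).aemeasurable)]
    refine ENNReal.tsum_le_tsum ?_
    intro j
    rw [lintegral_const_mul _ (hem M j)]
    exact mul_le_mul_right (hes M j) _
  have hfin : ∫⁻ w, liminf (fun M => S M w) atTop ∂m ≠ ∞ := by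
    refine ne_top_of_le_ne_top tsum_bound ?_
    refine (lintegral_liminf_le hSm).trans ?_
    refine (liminf_le_of_le ?_ ?_)
    · isBoundedDefault
    · intro b hb
      obtain ⟨M, hM⟩ := hb.exists
      exact hM.trans (hSb M)
  have hae := ae_lt_top (Measurable.liminf hSm) hfin
  filter_upwards [hae] with w hw hinv
  obtain ⟨C, hC1, hC2⟩ := exists_between hw
  have hfreq : ∃ᶠ M in atTop, S M w < C := frequently_lt_of_liminf_lt (by isBoundedDefault) hC1
  obtain ⟨φ, hφ, hφC⟩ := extraction_of_frequently_atTop hfreq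
  refine ⟨φ, hφ, ?_⟩
  intro r ε hε
  have hlim1 : Tendsto (fun s : ℕ => (1 : ℝ) / 4 ^ s) atTop (𝓝 0) := by
    have := tendsto_pow_atTop_nhds_zero_of_lt_one (r := (1 / 4 : ℝ)) (by norm_num) (by norm_num)
    simpa [div_pow] using this
  have hlim2 : Tendsto (fun s : ℕ => C.toReal * (1 / 2) ^ s) atTop (𝓝 0) := by
    have := (tendsto_pow_atTop_nhds_zero_of_lt_one (r := (1 / 2 : ℝ)) (by norm_num)
      (by norm_num)).const_mul C.toReal
    simpa using this
  obtain ⟨s, hs1, hs2⟩ := ((hlim1.eventually (ge_mem_nhds hε)).and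
    (hlim2.eventually (ge_mem_nhds (show (0 : ℝ) < ε ^ 2 by positivity)))).exists
  set j := Nat.pair r s with hj
  have hjr : (Nat.unpair j).1 = r := by rw [hj, Nat.unpair_pair]
  have hsj : s ≤ j := Nat.right_le_pair r s
  refine ⟨4 ^ j, by positivity, ?_, d j, ?_⟩
  · refine le_trans ?_ hs1
    push_cast
    refine one_div_le_one_div_of_le (by positivity) ?_
    exact pow_le_pow_right₀ (by norm_num) hsj
  · intro l c' hc' hcB' hcc'
    have hind := lint_indep hconj (κ w) hinv (W p (φ l)) k (bb p β (φ l)) (hh p β 0 r)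
      (fun i hi => bb_supp hhh p β (φ l) i hi) (d j) (c j (φ l)) c'
      (by
        intro n
        have := hc j (φ l) n
        rwa [hjr] at this)
      hc' (hcB j (φ l)) hcB' (hcc j (φ l)) hcc'
    have hle : (2 : ℝ≥0∞) ^ j * e (φ l) j w ≤ C := by
      refine le_trans ?_ (hφC l).le
      exact ENNReal.le_tsum (f := fun j => (2 : ℝ≥0∞) ^ j * e (φ l) j w) j
    have hbound : ∫⁻ a, ENNReal.ofReal ((Zf k (bb p β (φ l)) (d j) c' a) ^ 2) ∂(κ w)
        ≤ ENNReal.ofReal (ε ^ 2) := by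
      rw [hind]
      change e (φ l) j w ≤ _
      have h2 : e (φ l) j w ≤ C / 2 ^ j := by
        rw [ENNReal.le_div_iff_mul_le (Or.inl (by positivity)) (Or.inl (by finiteness)), mul_comm]
        exact hle
      refine h2.trans ?_
      have hCr : C = ENNReal.ofReal C.toReal := (ENNReal.ofReal_toReal hC2.ne).symm
      rw [hCr, show (2 : ℝ≥0∞) ^ j = ENNReal.ofReal (2 ^ j) by
        rw [ENNReal.ofReal_pow (by norm_num)]; simp, ← ENNReal.ofReal_div_of_pos (by positivity)]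
      refine ENNReal.ofReal_le_ofReal ?_
      refine le_trans ?_ hs2
      rw [div_eq_mul_inv, ← inv_pow, ← one_div]
      refine mul_le_mul_of_nonneg_left ?_ ENNReal.toReal_nonneg
      exact pow_le_pow_of_le_one (by norm_num) (by norm_num) hsj
    rw [integral_eq_lintegral_of_nonneg_ae (Eventually.of_forall fun a => sq_nonneg _)
      ((measurable_Zf _ _ _ _).pow_const 2).aestronglyMeasurable]
    exact ENNReal.toReal_le_of_le_ofReal (by positivity) hbound

end Pool.Agent.H85.BC2
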