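import Pool.Agent.H85.BC2.Maps

/-!
# Module C2 of MP_02e9fb_an, part 2: the second moment estimate and the choice of the component
-/

open scoped ComplexConjugate InnerProductSpace ENNReal
open Filter Topology MeasureTheory

namespace Pool.Agent.H85.BC2

open Pool.Agent.H84.B

variable {Λ : Type} [CommRing Λ]

/-! ### group facts for `pY` -/

lemma pY_add (σ : FP) (y y' : Y Λ) : pY σ (y + y') = pY σ y + pY σ y' := by
  apply Subtype.ext
  exact emd_add _ _ _

lemma pY_smul (σ : FP) (k : Λ) (y : Y Λ) : pY σ (k • y) = k • pY σ y := by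
  apply Subtype.ext
  ext i
  rfl

lemma pY_mul (σ τ : FP) (y : Y Λ) : pY (σ * τ) y = pY σ (pY τ y) := by
  apply Subtype.ext
  change Finsupp.equivMapDomain (τ.1.trans σ.1) y.1 = _
  rw [Finsupp.equivMapDomain_trans]
  rfl

lemma pY_one (y : Y Λ) : pY 1 y = y := by
  apply Subtype.ext
  change Finsupp.equivMapDomain (Equiv.refl _) y.1 = _
  rw [Finsupp.equivMapDomain_refl]

lemma copy_symm {y y' : Y Λ} (h : IsCopy y y') : IsCopy y' y := by
  obtain ⟨σ, rfl⟩ := h
  exact ⟨σ⁻¹, by rw [← pY_mul, inv_mul_cancel, pY_one]⟩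

lemma copy_trans {y y' y'' : Y Λ} (h : IsCopy y y') (h' : IsCopy y' y'') : IsCopy y y'' := by
  obtain ⟨σ, rfl⟩ := h
  obtain ⟨τ, rfl⟩ := h'
  exact ⟨τ * σ, by rw [pY_mul]⟩

lemma pY_fix (σ : FP) (y : Y Λ) (h : ∀ i, y.1 i ≠ 0 → σ.1 i = i) : pY σ y = y := by
  apply Subtype.ext
  ext i
  obtain ⟨j, rfl⟩ := σ.1.surjective i
  rw [pY_apply']
  by_cases hj : y.1 j = 0
  · by_cases h2 : y.1 (σ.1 j) = 0
    · rw [hj, h2]
    · have := h _ h2
      have := σ.1.injective this
      rw [this]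
  · rw [h j hj]

lemma copy_emb (hext : T_perm_extend) (e : ℕ ↪ ℕ) (y : Y Λ) : IsCopy y (emb e y) := by
  obtain ⟨σ, hσ, _⟩ := hext y.1.support e e.injective.injOn
  refine ⟨σ, ?_⟩
  apply Subtype.ext
  ext i
  obtain ⟨j, rfl⟩ := σ.1.surjective i
  rw [pY_apply']
  by_cases hj : y.1 j = 0
  · rw [hj]
    by_contra hne
    obtain ⟨l, hl, hl'⟩ := emb_ne_zero hne
    have h1 := hσ l (Finsupp.mem_support_iff.2 hl')
    rw [← h1] at hl
    have h2 := σ.1.injective hl
    rw [h2] at hl'
    exact hl' hj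
  · rw [hσ j (Finsupp.mem_support_iff.2 hj), emb_apply]

/-! ### cylinder functions -/

/-- the basic cylinder sets -/
def cyl (u : ℕ →₀ Λ) : Set (Om Λ) := {a | a u = true}

lemma measurableSet_cyl (u : ℕ →₀ Λ) : MeasurableSet (cyl u) := by
  have h : Measurable (fun a : Om Λ => a u) := measurable_pi_apply u
  exact h (measurableSet_singleton true)

lemma measurable_ind {Ω : Type} [MeasurableSpace Ω] {E : Set Ω} (hE : MeasurableSet E) :
    Measurable (ind E) := measurable_const.indicator hE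

lemma ind_nonneg {Ω : Type} (E : Set Ω) (a : Ω) : 0 ≤ ind E a := by
  unfold ind
  exact Set.indicator_nonneg (fun _ _ => zero_le_one) a

lemma ind_le_one {Ω : Type} (E : Set Ω) (a : Ω) : ind E a ≤ 1 := by
  unfold ind
  exact Set.indicator_le_self' (fun _ _ => zero_le_one) a

/-- the product of the two indicators at `z + b` and `z` -/
noncomputable def G (b z : Y Λ) (a : Om Λ) : ℝ := ind (cyl (z + b).1) a * ind (cyl z.1) a

lemma measurable_G (b z : Y Λ) : Measurable (G b z) :=
  (measurable_ind (measurableSet_cyl _)).mul (measurable_ind (measurableSet_cyl _))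

lemma G_nonneg (b z : Y Λ) (a : Om Λ) : 0 ≤ G b z a :=
  mul_nonneg (ind_nonneg _ _) (ind_nonneg _ _)

lemma G_le_one (b z : Y Λ) (a : Om Λ) : G b z a ≤ 1 :=
  mul_le_one₀ (ind_le_one _ _) (ind_nonneg _ _) (ind_le_one _ _)

lemma G_perm (σ : FP) (b z : Y Λ) (a : Om Λ) :
    G b z (permOm σ.1 a) = G (pY σ b) (pY σ z) a := by
  unfold G
  rw [← pY_add]
  rfl

lemma G_Vm (σ : FP) (b z : Y Λ) (a : Om Λ) :
    G b z (Vm σ a) = G (pY (hat σ) b) (pY (hat σ) z) a := G_perm (hat σ) b z a

/-- the difference of the frozen and the active average -/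
noncomputable def Z {N : ℕ} (b : Y Λ) (x z : Fin N → Y Λ) (a : Om Λ) : ℝ :=
  (1 / (N : ℝ)) * ∑ n, G b (x n) a - (1 / (N : ℝ)) * ∑ n, G b (z n) a

lemma measurable_Z {N : ℕ} (b : Y Λ) (x z : Fin N → Y Λ) : Measurable (Z b x z) := by
  unfold Z
  refine Measurable.sub ?_ ?_
  · exact (Finset.measurable_fun_sum _ fun n _ => measurable_G _ _).const_mul _
  · exact (Finset.measurable_fun_sum _ fun n _ => measurable_G _ _).const_mul _

lemma integral_perm (m : Measure (Om Λ)) (hm : Exch m) (σ : FP) (b x y b' x' y' : Y Λ)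
    (hb : pY σ b = b') (hx : pY σ x = x') (hy : pY σ y = y') :
    ∫ a, G b' x' a * G b' y' a ∂m = ∫ a, G b x a * G b y a ∂m := by
  have h1 : ∫ a, G b x a * G b y a ∂m
      = ∫ a, G b x (permOm σ.1 a) * G b y (permOm σ.1 a) ∂m := by
    have := hm.perm σ
    conv_lhs => rw [← this.map_eq]
    rw [integral_map this.measurable.aemeasurable]
    exact ((measurable_G _ _).mul (measurable_G _ _)).aestronglyMeasurable
  rw [h1]
  simp only [G_perm, hb, hx, hy]

lemma integrable_bdd (m : Measure (Om Λ)) [IsFiniteMeasure m] {f : Om Λ → ℝ} (hf : Measurable f)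
    (C : ℝ) (hC : ∀ a, |f a| ≤ C) : Integrable f m :=
  Integrable.of_bound hf.aestronglyMeasurable C (Eventually.of_forall hC)

/-- The second moment estimate. -/
lemma second_moment (hconj : T_conj) (m : Measure (Om Λ)) (hm : Exch m) {N : ℕ} (hN : 0 < N)
    (k : Λ) (b h : Y Λ) (x z : Fin N → Y Λ)
    (hx : ∀ n, IsCopy h (x n)) (hz : ∀ n, IsCopy h (z n))
    (hxb : ∀ n, Dsj (x n) b) (hzb : ∀ n, Dsj (z n) b)
    (hxx : ∀ n n', n ≠ n' → Dsj (x n) (x n')) (hzz : ∀ n n', n ≠ n' → Dsj (z n) (z n'))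
    (hxz : ∀ n n', Dsj (x n) (z n')) :
    ∫ a, (Z (k • b) (fun n => k • x n) (fun n => k • z n) a) ^ 2 ∂m ≤ 1 / N := by
  have := hm.prob
  have hNr : (0 : ℝ) < N := by exact_mod_cast hN
  set P : Fin N → Om Λ → ℝ := fun n => G (k • b) (k • x n) with hP
  set Q : Fin N → Om Λ → ℝ := fun n => G (k • b) (k • z n) with hQ
  have hPm : ∀ n, Measurable (P n) := fun n => measurable_G _ _
  have hQm : ∀ n, Measurable (Q n) := fun n => measurable_G _ _
  have hP0 : ∀ n a, 0 ≤ P n a := fun n a => G_nonneg _ _ _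
  have hQ0 : ∀ n a, 0 ≤ Q n a := fun n a => G_nonneg _ _ _
  have hP1 : ∀ n a, P n a ≤ 1 := fun n a => G_le_one _ _ _
  have hQ1 : ∀ n a, Q n a ≤ 1 := fun n a => G_le_one _ _ _
  have hcommon : ∀ (x1 x2 y1 y2 : Y Λ), IsCopy h x1 → IsCopy h x2 → IsCopy h y1 → IsCopy h y2 →
      Dsj x1 b → Dsj x2 b → Dsj y1 b → Dsj y2 b → Dsj x1 x2 → Dsj y1 y2 →
      ∫ a, G (k • b) (k • y1) a * G (k • b) (k • y2) a ∂m
        = ∫ a, G (k • b) (k • x1) a * G (k • b) (k • x2) a ∂m := by
    intro x1 x2 y1 y2 cx1 cx2 cy1 cy2 bx1 bx2 by1 by2 dx dy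
    obtain ⟨σ, hσ, hσ2⟩ := hconj Λ b.1.support 2 ![x1, x2] ![y1, y2]
      (by
        intro n
        fin_cases n
        · exact copy_trans (copy_symm cx1) cy1
        · exact copy_trans (copy_symm cx2) cy2)
      (by
        intro n
        fin_cases n
        · exact bx1
        · exact bx2)
      (by
        intro n
        fin_cases n
        · exact by1
        · exact by2)
      (by
        intro n n' hnn
        fin_cases n <;> fin_cases n'
        · exact absurd rfl hnn
        · exact dx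
        · exact dsj_symm dx
        · exact absurd rfl hnn)
      (by
        intro n n' hnn
        fin_cases n <;> fin_cases n'
        · exact absurd rfl hnn
        · exact dy
        · exact dsj_symm dy
        · exact absurd rfl hnn)
    have e1' : y1 = pY σ x1 := hσ2 0
    have e2' : y2 = pY σ x2 := hσ2 1
    refine integral_perm m hm σ _ _ _ _ _ _ ?_ ?_ ?_
    · rw [pY_smul, pY_fix σ b (fun i hi => hσ i (Finsupp.mem_support_iff.2 hi))]
    · rw [pY_smul, ← e1']
    · rw [pY_smul, ← e2']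
  have hoff : ∀ n n', n ≠ n' → ∫ a, (P n a - Q n a) * (P n' a - Q n' a) ∂m = 0 := by
    intro n n' hnn
    have hint : ∀ (F F' : Om Λ → ℝ), Measurable F → Measurable F' → (∀ a, 0 ≤ F a) →
        (∀ a, 0 ≤ F' a) → (∀ a, F a ≤ 1) → (∀ a, F' a ≤ 1) → Integrable (fun a => F a * F' a) m := by
      intro F F' hF hF' h0 h0' h1 h1'
      refine integrable_bdd m (hF.mul hF') 1 ?_
      intro a
      rw [abs_of_nonneg (mul_nonneg (h0 a) (h0' a))]
      exact mul_le_one₀ (h1 a) (h0' a) (h1' a)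
    have i1 := hint (P n) (P n') (hPm n) (hPm n') (hP0 n) (hP0 n') (hP1 n) (hP1 n')
    have i2 := hint (P n) (Q n') (hPm n) (hQm n') (hP0 n) (hQ0 n') (hP1 n) (hQ1 n')
    have i3 := hint (Q n) (P n') (hQm n) (hPm n') (hQ0 n) (hP0 n') (hQ1 n) (hP1 n')
    have i4 := hint (Q n) (Q n') (hQm n) (hQm n') (hQ0 n) (hQ0 n') (hQ1 n) (hQ1 n')
    have hexp : ∫ a, (P n a - Q n a) * (P n' a - Q n' a) ∂m
        = ∫ a, P n a * P n' a ∂m - ∫ a, P n a * Q n' a ∂m
          - (∫ a, Q n a * P n' a ∂m - ∫ a, Q n a * Q n' a ∂m) := by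
      rw [← integral_sub i1 i2, ← integral_sub i3 i4]
      have i12 : Integrable (fun a => P n a * P n' a - P n a * Q n' a) m := i1.sub i2
      have i34 : Integrable (fun a => Q n a * P n' a - Q n a * Q n' a) m := i3.sub i4
      rw [← integral_sub i12 i34]
      congr 1
      funext a
      ring
    rw [hexp]
    have c2 := hcommon (x n) (x n') (x n) (z n') (hx n) (hx n') (hx n) (hz n') (hxb n) (hxb n')
      (hxb n) (hzb n') (hxx n n' hnn) (hxz n n')
    have c3 := hcommon (x n) (x n') (z n) (x n') (hx n) (hx n') (hz n) (hx n') (hxb n) (hxb n')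
      (hzb n) (hxb n') (hxx n n' hnn) (dsj_symm (hxz n' n))
    have c4 := hcommon (x n) (x n') (z n) (z n') (hx n) (hx n') (hz n) (hz n') (hxb n) (hxb n')
      (hzb n) (hzb n') (hxx n n' hnn) (hzz n n' hnn)
    simp only [hP, hQ]
    rw [c2, c3, c4]
    ring
  have hdiag : ∀ n, ∫ a, (P n a - Q n a) * (P n a - Q n a) ∂m ≤ 1 := by
    intro n
    have : ∫ a, (P n a - Q n a) * (P n a - Q n a) ∂m ≤ ∫ _a : Om Λ, (1 : ℝ) ∂m := by
      refine integral_mono ?_ (integrable_const _) ?_
      · refine integrable_bdd m (((hPm n).sub (hQm n)).mul ((hPm n).sub (hQm n))) 1 ?_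
        intro a
        rw [abs_mul]
        have : |P n a - Q n a| ≤ 1 := by
          rw [abs_le]
          constructor
          · linarith [hP0 n a, hQ1 n a]
          · linarith [hP1 n a, hQ0 n a]
        exact mul_le_one₀ this (abs_nonneg _) this
      · intro a
        change (P n a - Q n a) * (P n a - Q n a) ≤ 1
        nlinarith [hP0 n a, hQ0 n a, hP1 n a, hQ1 n a]
    simpa using this
  have hZ : ∀ a, (Z (k • b) (fun n => k • x n) (fun n => k • z n) a) ^ 2
      = (1 / (N : ℝ)) ^ 2 * ∑ n, ∑ n', (P n a - Q n a) * (P n' a - Q n' a) := by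
    intro a
    have h1 : Z (k • b) (fun n => k • x n) (fun n => k • z n) a
        = (1 / (N : ℝ)) * ∑ n, (P n a - Q n a) := by
      unfold Z
      rw [Finset.sum_sub_distrib]
      ring
    rw [h1, mul_pow, sq (∑ n, (P n a - Q n a)), Finset.sum_mul_sum]
  have hi : ∀ n n', Integrable (fun a => (P n a - Q n a) * (P n' a - Q n' a)) m := by
    intro n n'
    refine integrable_bdd m (((hPm n).sub (hQm n)).mul ((hPm n').sub (hQm n'))) 1 ?_
    intro a
    rw [abs_mul]
    have : ∀ n, |P n a - Q n a| ≤ 1 := by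
      intro n
      rw [abs_le]
      constructor
      · linarith [hP0 n a, hQ1 n a]
      · linarith [hP1 n a, hQ0 n a]
    exact mul_le_one₀ (this n) (abs_nonneg _) (this n')
  calc ∫ a, (Z (k • b) (fun n => k • x n) (fun n => k • z n) a) ^ 2 ∂m
      = ∫ a, (1 / (N : ℝ)) ^ 2 * ∑ n, ∑ n', (P n a - Q n a) * (P n' a - Q n' a) ∂m := by
        congr 1
        funext a
        exact hZ a
    _ = (1 / (N : ℝ)) ^ 2 * ∑ n, ∑ n', ∫ a, (P n a - Q n a) * (P n' a - Q n' a) ∂m := by
        rw [integral_const_mul, integral_finsetSum _ (fun n _ => integrable_finsetSum _ (fun n' _ => hi n n'))]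
        congr 1
        refine Finset.sum_congr rfl ?_
        intro n _
        rw [integral_finsetSum _ (fun n' _ => hi n n')]
    _ ≤ (1 / (N : ℝ)) ^ 2 * ∑ n : Fin N, (1 : ℝ) := by
        refine mul_le_mul_of_nonneg_left ?_ (by positivity)
        refine Finset.sum_le_sum ?_
        intro n _
        rw [Finset.sum_eq_single n (fun n' _ hne => hoff n n' (Ne.symm hne))
          (fun hn => absurd (Finset.mem_univ n) hn)]
        exact hdiag n
    _ = 1 / N := by
        simp
        field_simp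

end Pool.Agent.H85.BC2
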