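import Pool.Agent.H84.B.TargetsM

/-!
# Module C2 of MP_02e9fb_an, part 1: active and frozen coordinates
-/

open scoped ComplexConjugate InnerProductSpace
open Filter Topology MeasureTheory

namespace Pool.Agent.H85.BC2

open Pool.Agent.H84.B

variable {Λ : Type} [CommRing Λ]

/-- the active coordinates: the even numbers -/
def e1 : ℕ ↪ ℕ := ⟨fun n => 2 * n, fun a b h => by simpa using h⟩

/-- the frozen coordinates: the odd numbers -/
def e0 : ℕ ↪ ℕ := ⟨fun n => 2 * n + 1, fun a b h => by simpa using h⟩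

lemma e0_notMem (n : ℕ) : e0 n ∉ Set.range e1 := by
  rintro ⟨k, hk⟩
  simp only [e0, e1, Function.Embedding.coeFn_mk] at hk
  omega

/-- transport of an element of `Y` -/
noncomputable def emb (e : ℕ ↪ ℕ) (y : Y Λ) : Y Λ :=
  ⟨Finsupp.mapDomain e y.1, by
    have hy : sumMap Λ y.1 = 0 := y.2
    change sumMap Λ _ = 0
    rw [← hy]
    simp [sumMap, Finsupp.linearCombination_mapDomain, Function.comp_def]⟩

lemma emb_apply (e : ℕ ↪ ℕ) (y : Y Λ) (i : ℕ) : (emb e y).1 (e i) = y.1 i :=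
  Finsupp.mapDomain_apply e.injective _ _

lemma emb_apply_of_notMem (e : ℕ ↪ ℕ) (y : Y Λ) (i : ℕ) (h : i ∉ Set.range e) :
    (emb e y).1 i = 0 :=
  Finsupp.mapDomain_of_notMem_range _ _ h

lemma emb_add (e : ℕ ↪ ℕ) (y y' : Y Λ) : emb e (y + y') = emb e y + emb e y' := by
  apply Subtype.ext
  exact Finsupp.mapDomain_add

lemma emb_smul (e : ℕ ↪ ℕ) (k : Λ) (y : Y Λ) : emb e (k • y) = k • emb e y := by
  apply Subtype.ext
  exact Finsupp.mapDomain_smul _ _

lemma emb_zero (e : ℕ ↪ ℕ) : emb e (0 : Y Λ) = 0 := by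
  apply Subtype.ext
  exact Finsupp.mapDomain_zero (f := e)

lemma emb_ne_zero {e : ℕ ↪ ℕ} {y : Y Λ} {i : ℕ} (h : (emb e y).1 i ≠ 0) :
    ∃ j, e j = i ∧ y.1 j ≠ 0 := by
  by_cases hi : i ∈ Set.range e
  · obtain ⟨j, rfl⟩ := hi
    exact ⟨j, rfl, by rwa [emb_apply] at h⟩
  · exact absurd (emb_apply_of_notMem e y i hi) h

lemma dsj_iff (y y' : Y Λ) : Dsj y y' ↔ ∀ i, y.1 i ≠ 0 → y'.1 i ≠ 0 → False := by
  unfold Dsj
  rw [Finset.disjoint_left]
  constructor
  · intro h i h1 h2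
    exact h (Finsupp.mem_support_iff.2 h1) (Finsupp.mem_support_iff.2 h2)
  · intro h i h1 h2
    exact h i (Finsupp.mem_support_iff.1 h1) (Finsupp.mem_support_iff.1 h2)

lemma off_iff (y : Y Λ) (B : Finset ℕ) : Off y B ↔ ∀ i, y.1 i ≠ 0 → i ∉ B := by
  unfold Off
  rw [Finset.disjoint_left]
  constructor
  · intro h i h1
    exact h (Finsupp.mem_support_iff.2 h1)
  · intro h i h1
    exact h i (Finsupp.mem_support_iff.1 h1)

lemma emb_dsj (e : ℕ ↪ ℕ) {y y' : Y Λ} (h : Dsj y y') : Dsj (emb e y) (emb e y') := by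
  rw [dsj_iff] at h ⊢
  intro i h1 h2
  obtain ⟨j, hj, hj'⟩ := emb_ne_zero h1
  obtain ⟨l, hl, hl'⟩ := emb_ne_zero h2
  have : j = l := e.injective (hj.trans hl.symm)
  subst this
  exact h j hj' hl'

lemma emb_dsj' (y y' : Y Λ) : Dsj (emb e0 y) (emb e1 y') := by
  rw [dsj_iff]
  intro i h1 h2
  obtain ⟨j, hj, _⟩ := emb_ne_zero h1
  obtain ⟨l, hl, _⟩ := emb_ne_zero h2
  exact e0_notMem j ⟨l, hl.trans hj.symm⟩

lemma dsj_symm {y y' : Y Λ} (h : Dsj y y') : Dsj y' y := Disjoint.symm h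

lemma dsj_smul (k : Λ) {y y' : Y Λ} (h : Dsj y y') : Dsj (k • y) (k • y') := by
  rw [dsj_iff] at h ⊢
  intro i h1 h2
  refine h i ?_ ?_
  · intro h0
    apply h1
    change k • y.1 i = 0
    rw [h0, smul_zero]
  · intro h0
    apply h2
    change k • y'.1 i = 0
    rw [h0, smul_zero]

/-- the finitary permutation of the active coordinates -/
noncomputable def hat (σ : FP) : FP :=
  ⟨Equiv.Perm.viaEmbedding σ.1 e1, by
    have hσ : {i | σ.1 i ≠ i}.Finite := σ.2
    refine Set.Finite.subset (hσ.image e1) ?_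
    intro i hi
    by_cases h : i ∈ Set.range e1
    · obtain ⟨j, rfl⟩ := h
      refine ⟨j, ?_, rfl⟩
      intro hj
      apply hi
      rw [Equiv.Perm.viaEmbedding_apply, hj]
    · exact absurd (Equiv.Perm.viaEmbedding_apply_of_notMem _ _ _ h) hi⟩

lemma hat_apply (σ : FP) (i : ℕ) : (hat σ).1 (e1 i) = e1 (σ.1 i) :=
  Equiv.Perm.viaEmbedding_apply _ _ _

lemma hat_apply_of_notMem (σ : FP) (i : ℕ) (h : i ∉ Set.range e1) : (hat σ).1 i = i :=
  Equiv.Perm.viaEmbedding_apply_of_notMem _ _ _ h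

lemma hat_mul (σ τ : FP) : hat (σ * τ) = hat σ * hat τ := by
  apply Subtype.ext
  exact map_mul (Equiv.Perm.viaEmbeddingHom e1) σ.1 τ.1

lemma hat_one : hat 1 = 1 := by
  apply Subtype.ext
  exact map_one (Equiv.Perm.viaEmbeddingHom e1)

lemma pY_apply' (σ : FP) (y : Y Λ) (i : ℕ) : (pY σ y).1 (σ.1 i) = y.1 i := by
  rw [pY_apply, Equiv.symm_apply_apply]

lemma pY_hat_emb1 (σ : FP) (y : Y Λ) : pY (hat σ) (emb e1 y) = emb e1 (pY σ y) := by
  apply Subtype.ext
  ext i
  obtain ⟨j, rfl⟩ := (hat σ).1.surjective i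
  rw [pY_apply']
  by_cases hj : j ∈ Set.range e1
  · obtain ⟨l, rfl⟩ := hj
    rw [hat_apply, emb_apply, emb_apply, pY_apply']
  · rw [emb_apply_of_notMem _ _ _ hj, hat_apply_of_notMem _ _ hj, emb_apply_of_notMem _ _ _ hj]

lemma pY_hat_emb0 (σ : FP) (y : Y Λ) : pY (hat σ) (emb e0 y) = emb e0 y := by
  apply Subtype.ext
  ext i
  obtain ⟨j, rfl⟩ := (hat σ).1.surjective i
  rw [pY_apply']
  by_cases hj : j ∈ Set.range e1
  · obtain ⟨l, rfl⟩ := hj
    rw [hat_apply, emb_apply_of_notMem, emb_apply_of_notMem]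
    · rintro ⟨a, ha⟩
      exact e0_notMem a ⟨_, ha.symm⟩
    · rintro ⟨a, ha⟩
      exact e0_notMem a ⟨_, ha.symm⟩
  · rw [hat_apply_of_notMem _ _ hj]

/-! ### the maps on the sequence space -/

lemma measurable_shiftOm (h : ℕ →₀ Λ) : Measurable (shiftOm (Λ := Λ) h) := by
  rw [measurable_pi_iff]
  intro u
  exact measurable_pi_apply _

lemma measurable_permOm (σ : Equiv.Perm ℕ) : Measurable (permOm (Λ := Λ) σ) := by
  rw [measurable_pi_iff]
  intro u
  exact measurable_pi_apply _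

lemma permOm_mul (σ τ : Equiv.Perm ℕ) (a : Om Λ) :
    permOm (σ * τ) a = permOm τ (permOm σ a) := by
  funext u
  unfold permOm
  rw [Equiv.Perm.mul_def, Finsupp.equivMapDomain_trans]

lemma permOm_one (a : Om Λ) : permOm 1 a = a := by
  funext u
  unfold permOm
  rw [Equiv.Perm.one_def, Finsupp.equivMapDomain_refl]

/-- the action of `Y` -/
noncomputable def Um (y : Y Λ) : Om Λ ≃ᵐ Om Λ where
  toFun := shiftOm (emb e1 y).1
  invFun := shiftOm (-(emb e1 y).1)
  left_inv := by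
    intro a
    funext u
    simp [shiftOm]
  right_inv := by
    intro a
    funext u
    simp [shiftOm]
  measurable_toFun := measurable_shiftOm _
  measurable_invFun := measurable_shiftOm _

/-- the action of the finitary permutations -/
noncomputable def Vm (σ : FP) : Om Λ ≃ᵐ Om Λ where
  toFun := permOm (hat σ).1
  invFun := permOm ((hat σ).1)⁻¹
  left_inv := by
    intro a
    rw [← permOm_mul, mul_inv_cancel, permOm_one]
  right_inv := by
    intro a
    rw [← permOm_mul, inv_mul_cancel, permOm_one]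
  measurable_toFun := measurable_permOm _
  measurable_invFun := measurable_permOm _

lemma Um_apply (y : Y Λ) (a : Om Λ) (u : ℕ →₀ Λ) : Um y a u = a (u + (emb e1 y).1) := rfl

lemma Vm_apply (σ : FP) (a : Om Λ) (u : ℕ →₀ Λ) :
    Vm σ a u = a (Finsupp.equivMapDomain (hat σ).1 u) := rfl

lemma Vm_apply_Y (σ : FP) (a : Om Λ) (y : Y Λ) : Vm σ a y.1 = a (pY (hat σ) y).1 := rfl

lemma Um_zero (a : Om Λ) : Um 0 a = a := by
  funext u
  rw [Um_apply, emb_zero]
  simp

lemma Um_add (y y' : Y Λ) (a : Om Λ) : Um (y + y') a = Um y (Um y' a) := by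
  funext u
  rw [Um_apply, Um_apply, Um_apply, emb_add]
  simp [add_assoc]

lemma Vm_one (a : Om Λ) : Vm 1 a = a := by
  funext u
  rw [Vm_apply, hat_one]
  change a (Finsupp.equivMapDomain (Equiv.refl _) u) = _
  rw [Finsupp.equivMapDomain_refl]

lemma Vm_mul (σ τ : FP) (a : Om Λ) : Vm (σ * τ) a = Vm τ (Vm σ a) := by
  change permOm _ _ = permOm _ (permOm _ _)
  rw [hat_mul]
  exact permOm_mul _ _ _

lemma emd_add (σ : Equiv.Perm ℕ) (u v : ℕ →₀ Λ) :
    Finsupp.equivMapDomain σ (u + v) = Finsupp.equivMapDomain σ u + Finsupp.equivMapDomain σ v := by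
  ext i
  simp

lemma Vm_Um (σ : FP) (y : Y Λ) (a : Om Λ) : Um y (Vm σ a) = Vm σ (Um (pY σ y) a) := by
  funext u
  rw [Um_apply, Vm_apply, Vm_apply, Um_apply, emd_add]
  congr 2
  exact congrArg Subtype.val (pY_hat_emb1 σ y)

instance : Countable FP := by
  have hinj : Function.Injective (fun σ : FP => (Finsupp.ofSupportFinite
      (fun i => ((σ.1 i : ℕ) : ℤ) - (i : ℤ)) (Set.Finite.subset σ.2 (by
        intro i hi h
        apply hi
        simp [h])) : ℕ →₀ ℤ)) := by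
    intro σ τ h
    apply Subtype.ext
    ext i
    have := DFunLike.congr_fun h i
    simp only [Finsupp.ofSupportFinite_coe] at this
    omega
  exact hinj.countable

end Pool.Agent.H85.BC2
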